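import Mathlib

set_option autoImplicit false

namespace Pool.Agent.H.MP_e12dda_al

open Cardinal

abbrev K := ℚ_[2]
abbrev I := ℕ → Bool
abbrev L := List Bool
abbrev X := List I × L
abbrev W := X → K

open Classical in
/-- the free shift by a letter -/
noncomputable def sh (i : I) : Module.End K W where
  toFun f x := match x.1 with
    | [] => 0
    | j :: m => if j = i then f (m, x.2) else 0
  map_add' f g := by
    funext x
    rcases x with ⟨_ | ⟨j, m⟩, l⟩
    · simp
    · by_cases h : j = i <;> simp [h]
  map_smul' c f := by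
    funext x
    rcases x with ⟨_ | ⟨j, m⟩, l⟩
    · simp
    · by_cases h : j = i <;> simp [h]

@[simp] theorem sh_nil (i : I) (f : W) (l : L) : sh i f ([], l) = 0 := rfl

theorem sh_cons_self (i : I) (f : W) (m : List I) (l : L) : sh i f (i :: m, l) = f (m, l) := by
  simp [sh]

theorem sh_cons_ne (i j : I) (h : j ≠ i) (f : W) (m : List I) (l : L) :
    sh i f (j :: m, l) = 0 := by
  simp [sh, h]

theorem sh_cons_zero (i j : I) (f : W) (m : List I) (l : L) (h : f (m, l) = 0) :
    sh i f (j :: m, l) = 0 := by
  by_cases e : j = i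
  · subst e; rw [sh_cons_self, h]
  · exact sh_cons_ne _ _ e _ _ _

/-- functions all of whose values have norm at most `2^(-N)` -/
def Lam (N : ℕ) : AddSubgroup W where
  carrier := {f | ∀ x, ‖f x‖ ≤ (1 / 2 : ℝ) ^ N}
  zero_mem' := by intro x; simp
  add_mem' := by
    intro f g hf hg x
    exact (IsUltrametricDist.norm_add_le_max _ _).trans (max_le (hf x) (hg x))
  neg_mem' := by
    intro f hf x
    simpa using hf x

theorem mem_Lam {N : ℕ} {f : W} : f ∈ Lam N ↔ ∀ x, ‖f x‖ ≤ (1 / 2 : ℝ) ^ N := Iff.rfl

theorem smul_Lam {N M : ℕ} {c : K} {f : W} (hc : ‖c‖ ≤ (1 / 2 : ℝ) ^ N) (hf : f ∈ Lam M) :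
    c • f ∈ Lam (N + M) := by
  intro x
  simp only [Pi.smul_apply, smul_eq_mul, norm_mul, pow_add]
  exact mul_le_mul hc (hf x) (norm_nonneg _) (by positivity)

theorem smul_Lam0 {N : ℕ} {c : K} {f : W} (hc : ‖c‖ ≤ (1 / 2 : ℝ) ^ N) (hf : f ∈ Lam 0) :
    c • f ∈ Lam N := by simpa using smul_Lam hc hf

theorem sh_Lam {N : ℕ} (i : I) {f : W} (hf : f ∈ Lam N) : sh i f ∈ Lam N := by
  rintro ⟨_ | ⟨j, m⟩, l⟩
  · simp
  · by_cases h : j = i
    · subst h; rw [sh_cons_self]; exact hf _
    · rw [sh_cons_ne _ _ h]; simp

theorem Lam_anti {N M : ℕ} (h : N ≤ M) {f : W} (hf : f ∈ Lam M) : f ∈ Lam N := fun x =>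
  (hf x).trans (pow_le_pow_of_le_one (by norm_num) (by norm_num) h)

theorem eq_zero_of_Lam {f : W} (h : ∀ N, f ∈ Lam N) : f = 0 := by
  funext x
  have h1 : Filter.Tendsto (fun N : ℕ => (1 / 2 : ℝ) ^ N) Filter.atTop (nhds 0) :=
    tendsto_pow_atTop_nhds_zero_of_lt_one (by norm_num) (by norm_num)
  have : ‖f x‖ ≤ 0 := ge_of_tendsto' h1 (fun N => h N x)
  simpa using this

theorem norm_two : ‖(2 : K)‖ = 1 / 2 := by
  have := Padic.norm_p (p := 2)
  simpa using this

theorem norm_two_pow (n : ℕ) : ‖(2 : K) ^ n‖ = (1 / 2 : ℝ) ^ n := by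
  rw [norm_pow, norm_two]

/-- functions supported on words in the letters of `A` -/
def WA (A : Set I) : Submodule K W where
  carrier := {f | ∀ m l, (∃ j ∈ m, j ∉ A) → f (m, l) = 0}
  zero_mem' := by intro m l _; rfl
  add_mem' := by
    intro f g hf hg m l h
    simp [hf m l h, hg m l h]
  smul_mem' := by
    intro c f hf m l h
    simp [hf m l h]

theorem WA_mono {A B : Set I} (h : A ⊆ B) {f : W} (hf : f ∈ WA A) : f ∈ WA B := by
  rintro m l ⟨j, hj, hB⟩
  exact hf m l ⟨j, hj, fun hA => hB (h hA)⟩

theorem sh_WA {A : Set I} {i : I} (hi : i ∈ A) {f : W} (hf : f ∈ WA A) : sh i f ∈ WA A := by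
  rintro (_ | ⟨j, m⟩) l ⟨k, hk, hA⟩
  · simp
  · by_cases h : j = i
    · subst h
      rw [sh_cons_self]
      rcases List.mem_cons.1 hk with rfl | hk
      · exact absurd hi hA
      · exact hf m l ⟨k, hk, hA⟩
    · exact sh_cons_ne _ _ h _ _ _

/-- countably supported functions -/
def Wc : Submodule K W where
  carrier := {f | (Function.support f).Countable}
  zero_mem' := by simp
  add_mem' := by
    intro f g hf hg
    exact (Set.Countable.union hf hg).mono (Function.support_add f g)
  smul_mem' := by
    intro c f hf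
    refine Set.Countable.mono ?_ hf
    intro x hx h0
    apply hx
    simp [h0]

theorem sh_Wc (i : I) {f : W} (hf : f ∈ Wc) : sh i f ∈ Wc := by
  have hf' : (Function.support f).Countable := hf
  refine Set.Countable.mono ?_ (hf'.image (fun x : X => ((i :: x.1, x.2) : X)))
  rintro ⟨_ | ⟨j, m⟩, l⟩ hx
  · exact absurd (sh_nil i f l) hx
  · by_cases h : j = i
    · subst h
      refine ⟨(m, l), ?_, rfl⟩
      intro h0
      apply hx
      rw [sh_cons_self, h0]
    · exact absurd (sh_cons_ne _ _ h _ _ _) hx

/-- codes for countably supported functions -/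
abbrev C := ℕ → X × K

open Classical in
noncomputable def dec (c : C) : W := fun x =>
  if h : ∃ n, (c n).1 = x then (c h.choose).2 else 0

theorem exists_dec {f : W} (hf : f ∈ Wc) : ∃ c : C, dec c = f := by
  have hf' : (insert (([], []) : X) (Function.support f)).Countable := Set.Countable.insert _ hf
  obtain ⟨e, he⟩ := hf'.exists_eq_range ⟨_, Set.mem_insert _ _⟩
  refine ⟨fun n => (e n, f (e n)), ?_⟩
  funext x
  unfold dec
  split_ifs with h
  · have := h.choose_spec
    simp only at this ⊢
    rw [this]
  · by_contra h0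
    apply h
    have : x ∈ Set.range e := by
      rw [← he]
      exact Set.mem_insert_of_mem _ (fun h1 => h0 h1.symm)
    exact this

theorem mk_I : #I = 𝔠 := by simp [I]

theorem mk_K : #K = 𝔠 := by
  apply le_antisymm
  · have h : ∀ (x : K) (n : ℕ), ∃ q : ℚ, ‖x - q‖ < (1 / 2 : ℝ) ^ n := fun x n =>
      Padic.rat_dense 2 x (by positivity)
    choose q hq using h
    have hinj : Function.Injective q := by
      intro x y e
      have : (fun _ : X => x - y) = 0 := by
        apply eq_zero_of_Lam
        intro N _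
        have e1 : x - y = (x - q x N) + -(y - q y N) := by rw [e]; ring
        show ‖x - y‖ ≤ _
        rw [e1]
        refine (IsUltrametricDist.norm_add_le_max _ _).trans (max_le (hq x N).le ?_)
        rw [norm_neg]
        exact (hq y N).le
      exact sub_eq_zero.1 (congrFun this ([], []))
    simpa using Cardinal.mk_le_of_injective hinj
  · exact continuum_le_cardinal_of_nontriviallyNormedField K

theorem mk_ball : #(Metric.closedBall (0 : K) 1) = 𝔠 := by
  rw [cardinal_eq_of_mem_nhds K (Metric.closedBall_mem_nhds (0 : K) one_pos), mk_K]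

theorem mk_C : #C = 𝔠 := by
  have h1 : #(List I) = 𝔠 := by
    rw [Cardinal.mk_list_eq_mk, mk_I]
  have h2 : #L = ℵ₀ := by simp [L]
  simp [C, X, h1, h2, mk_K]

/-- products of operators along a word -/
noncomputable def wd (φ : I → Module.End K W) (m : List I) : Module.End K W := (m.map φ).prod

@[simp] theorem wd_nil (φ : I → Module.End K W) : wd φ [] = 1 := rfl

theorem wd_cons (φ : I → Module.End K W) (j : I) (m : List I) (f : W) :
    wd φ (j :: m) f = φ j (wd φ m f) := by simp [wd]

theorem wd_append (φ : I → Module.End K W) (m n : List I) (f : W) :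
    wd φ (m ++ n) f = wd φ m (wd φ n f) := by simp [wd]

theorem wd_congr {φ ψ : I → Module.End K W} {m : List I} (h : ∀ j ∈ m, φ j = ψ j) :
    wd φ m = wd ψ m := by
  unfold wd
  rw [List.map_congr_left h]

theorem wd_mem {S : Type} [SetLike S W] {φ : I → Module.End K W} {A : Set I} {V : S}
    (h : ∀ i ∈ A, ∀ v ∈ V, φ i v ∈ V) {m : List I} (hm : ∀ j ∈ m, j ∈ A) {v : W} (hv : v ∈ V) :
    wd φ m v ∈ V := by
  induction m with
  | nil => simpa using hv
  | cons j m ih =>
    rw [wd_cons]
    exact h j (hm j (by simp)) _ (ih (fun k hk => hm k (by simp [hk])))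

open Classical in
/-- value of a shifted function supported on the empty word -/
theorem wd_sh_apply {f : W} (hf : ∀ j m l, f (j :: m, l) = 0) (m n : List I) (l : L) :
    wd sh m f (n, l) = if n = m then f ([], l) else 0 := by
  induction m generalizing n with
  | nil =>
    rcases n with _ | ⟨j, n⟩
    · simp
    · simp [hf]
  | cons i m ih =>
    rw [wd_cons]
    rcases n with _ | ⟨j, n⟩
    · simp
    · by_cases h : j = i
      · subst h
        rw [sh_cons_self, ih]
        simp
      · rw [sh_cons_ne _ _ h]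
        simp [h]

open Classical in
noncomputable def b (l : L) : W := fun x => if x = ([], l) then 1 else 0

theorem b_cons (l : L) (j : I) (m : List I) (l' : L) : b l (j :: m, l') = 0 := by simp [b]

theorem b_self (l : L) : b l ([], l) = 1 := by simp [b]

theorem b_ne {l l' : L} (h : l' ≠ l) (m : List I) : b l (m, l') = 0 := by simp [b, h]

theorem b_Lam (l : L) : b l ∈ Lam 0 := by
  intro x
  unfold b
  split_ifs <;> simp

theorem b_WA (l : L) (A : Set I) : b l ∈ WA A := by
  rintro (_ | ⟨j, m⟩) l' ⟨k, hk, _⟩
  · simp at hk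
  · exact b_cons _ _ _ _

theorem b_Wc (l : L) : b l ∈ Wc := by
  refine Set.Countable.mono ?_ (Set.countable_singleton (([], l) : X))
  intro x hx
  by_contra h
  apply hx
  simp only [Set.mem_singleton_iff] at h
  simp [b, h]

def pre (t : I) (n : ℕ) : L := List.ofFn (fun k : Fin n => t k)

theorem pre_length (t : I) (n : ℕ) : (pre t n).length = n := by simp [pre]

open Classical in
noncomputable def xt (t : I) : W := fun x =>
  if x.1 = [] ∧ x.2 = pre t x.2.length then 2 ^ x.2.length else 0

theorem xt_cons (t : I) (j : I) (m : List I) (l : L) : xt t (j :: m, l) = 0 := by simp [xt]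

theorem xt_self (t : I) (n : ℕ) : xt t ([], pre t n) = 2 ^ n := by simp [xt, pre_length]

theorem xt_ne {t t' : I} {n : ℕ} (h : pre t n ≠ pre t' n) : xt t' ([], pre t n) = 0 := by
  simp [xt, pre_length, h]

theorem xt_WA (t : I) (A : Set I) : xt t ∈ WA A := by
  rintro (_ | ⟨j, m⟩) l' ⟨k, hk, _⟩
  · simp at hk
  · exact xt_cons _ _ _ _

theorem xt_Wc (t : I) : xt t ∈ Wc := by
  refine Set.Countable.mono ?_ (Set.countable_range (fun l : L => (([], l) : X)))
  rintro ⟨_ | ⟨j, m⟩, l⟩ hx
  · exact ⟨l, rfl⟩
  · exact absurd (xt_cons _ _ _ _) hx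

theorem xt_sub (t : I) (N : ℕ) :
    xt t - ∑ n ∈ Finset.range N, (2 : K) ^ n • b (pre t n) ∈ Lam N := by
  rintro ⟨m, l⟩
  simp only [Pi.sub_apply, Finset.sum_apply, Pi.smul_apply, smul_eq_mul]
  by_cases h : m = [] ∧ l = pre t l.length
  · obtain ⟨rfl, hl⟩ := h
    generalize l.length = k at hl
    subst hl
    rw [xt_self]
    by_cases hk : k < N
    · rw [Finset.sum_eq_single k]
      · simp [b_self]
      · intro n _ hn
        rw [b_ne, mul_zero]
        intro e
        have := congrArg List.length e
        simp only [pre_length] at this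
        exact hn this.symm
      · intro h; exact absurd (Finset.mem_range.2 hk) h
    · rw [Finset.sum_eq_zero]
      · rw [sub_zero, norm_two_pow]
        exact pow_le_pow_of_le_one (by norm_num) (by norm_num) (by omega)
      · intro n hn
        rw [b_ne, mul_zero]
        intro e
        have := congrArg List.length e
        simp only [pre_length] at this
        have := Finset.mem_range.1 hn
        omega
  · have h1 : xt t (m, l) = 0 := by simp only [xt]; rw [if_neg h]
    rw [h1, Finset.sum_eq_zero]
    · simp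
    · intro n _
      have : b (pre t n) (m, l) = 0 := by
        unfold b
        rw [if_neg]
        intro e
        apply h
        simp only [Prod.mk.injEq] at e
        obtain ⟨e1, e2⟩ := e
        subst e2
        simp [e1, pre_length]
      simp [this]

theorem xt_Lam (t : I) : xt t ∈ Lam 0 := by simpa using xt_sub t 0

theorem exists_sep (F : Finset I) (t : I) : ∃ n, ∀ t' ∈ F, t' ≠ t → pre t n ≠ pre t' n := by
  classical
  have key : ∀ t' : I, ∃ k : ℕ, t' ≠ t → t k ≠ t' k := by
    intro t'
    by_cases h : t' = t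
    · exact ⟨0, fun h' => absurd h h'⟩
    · obtain ⟨k, hk⟩ := Function.ne_iff.1 h
      exact ⟨k, fun _ e => hk e.symm⟩
  choose k hk using key
  refine ⟨F.sup k + 1, fun t' ht' hne e => hk t' hne ?_⟩
  have hle : k t' < F.sup k + 1 := Nat.lt_succ_of_le (Finset.le_sup ht')
  have := List.ofFn_injective e
  exact congrFun this ⟨k t', hle⟩

/-- genericity: a branch whose shifted vectors avoid a small subspace -/
theorem exists_generic (Z : Set W) (hZ : #Z < 𝔠) :
    ∃ t : I, ∀ ε : List I →₀ K,
      Finsupp.linearCombination K (fun m => wd sh m (xt t)) ε ∈ Submodule.span K Z → ε = 0 := by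
  classical
  by_contra hcon
  push Not at hcon
  choose ε hε hne using hcon
  set v : I → W := fun t => Finsupp.linearCombination K (fun m => wd sh m (xt t)) (ε t) with hv
  have hval : ∀ t m l, v t (m, l) = ε t m * xt t ([], l) := by
    intro t m l
    simp only [hv, Finsupp.linearCombination_apply, Finsupp.sum, Finset.sum_apply, Pi.smul_apply,
      smul_eq_mul, wd_sh_apply (xt_cons t)]
    rw [Finset.sum_eq_single m]
    · simp
    · intro n _ hn
      rw [if_neg (fun e => hn e.symm), mul_zero]
    · intro h
      rw [Finsupp.notMem_support_iff.1 h, zero_mul]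
  have hli : LinearIndependent K v := by
    rw [linearIndependent_iff']
    intro F g hg t ht
    obtain ⟨n, hn⟩ := exists_sep F t
    obtain ⟨m, hm⟩ := Finsupp.ne_iff.1 (hne t)
    have := congrFun hg (m, pre t n)
    simp only [Finset.sum_apply, Pi.smul_apply, smul_eq_mul, hval, Pi.zero_apply] at this
    rw [Finset.sum_eq_single t] at this
    · rw [xt_self] at this
      simp only [Finsupp.coe_zero, Pi.zero_apply] at hm
      simpa [hm] using this
    · intro t' ht' hne'
      rw [xt_ne (hn t' ht' hne')]
      simp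
    · intro h; exact absurd ht h
  have hli' : LinearIndependent K (fun t => (⟨v t, hε t⟩ : Submodule.span K Z)) := by
    apply LinearIndependent.of_comp (Submodule.span K Z).subtype
    exact hli
  have h1 := hli'.cardinal_le_rank
  have h2 := rank_span_le (R := K) Z
  rw [mk_I] at h1
  exact absurd (h1.trans h2) (not_le.2 hZ)

theorem exists_lim (z : ℕ → W) (hz : ∀ n, z n ∈ Lam n) :
    ∃ y : W, (∀ N, y - ∑ n ∈ Finset.range N, z n ∈ Lam N) ∧
      ∀ x, (∀ n, z n x = 0) → y x = 0 := by
  have hs : ∀ x, Summable (fun n => z n x) := by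
    intro x
    refine Summable.of_norm_bounded (g := fun n => (1 / 2 : ℝ) ^ n) ?_ (fun n => hz n x)
    exact summable_geometric_of_lt_one (by norm_num) (by norm_num)
  refine ⟨fun x => ∑' n, z n x, fun N x => ?_, fun x hx => by simp [hx]⟩
  simp only [Pi.sub_apply, Finset.sum_apply]
  rw [← (hs x).sum_add_tsum_nat_add N, add_sub_cancel_left]
  refine IsUltrametricDist.norm_tsum_le_of_forall_le_of_nonneg (by positivity) (fun n => ?_)
  exact Lam_anti (by omega) (hz (n + N)) x

end Pool.Agent.H.MP_e12dda_al
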