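import Pool.Agent.H.MP_e12dda_al.A

set_option autoImplicit false

namespace Pool.Agent.H.MP_e12dda_al

open Cardinal

/-- rational independence is preserved over the 2-adic field -/
def PI (V : Submodule ℚ W) : Prop :=
  ∀ (ι : Type) (F : Finset ι) (c : ι → K) (v : ι → W), (∀ k ∈ F, v k ∈ V) →
    ∑ k ∈ F, c k • v k = 0 → ∀ τ : K →ₗ[ℚ] ℚ, ∑ k ∈ F, τ (c k) • v k = 0

noncomputable def up {J : Type} (q : J →₀ ℚ) : J →₀ K := q.mapRange (fun r : ℚ => (r : K)) (by simp)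

@[simp] theorem up_apply {J : Type} (q : J →₀ ℚ) (j : J) : up q j = (q j : K) := by simp [up]

theorem lc_up {J : Type} (T : J → W) (q : J →₀ ℚ) :
    Finsupp.linearCombination K T (up q) = Finsupp.linearCombination ℚ T q := by
  simp only [Finsupp.linearCombination_apply, up]
  rw [Finsupp.sum_mapRange_index (by simp)]
  simp only [Rat.cast_smul_eq_qsmul]

theorem mem_sup_range {J : Type} {V : Submodule ℚ W} {T : J → W} {y : W}
    (h : y ∈ V ⊔ Submodule.span ℚ (Set.range T)) :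
    ∃ v ∈ V, ∃ q : J →₀ ℚ, y = v + Finsupp.linearCombination ℚ T q := by
  obtain ⟨v, hv, z, hz, rfl⟩ := Submodule.mem_sup.1 h
  rw [← Finsupp.range_linearCombination] at hz
  obtain ⟨q, rfl⟩ := hz
  exact ⟨v, hv, q, rfl⟩

theorem ext_mem {J : Type} {V : Submodule ℚ W} {U : Submodule K W} (hU : ∀ v ∈ V, v ∈ U)
    {T : J → W} (hT : ∀ c : J →₀ K, Finsupp.linearCombination K T c ∈ U → c = 0) {y : W}
    (hy : y ∈ U) (h : y ∈ V ⊔ Submodule.span ℚ (Set.range T)) : y ∈ V := by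
  obtain ⟨v, hv, q, rfl⟩ := mem_sup_range h
  have h1 : Finsupp.linearCombination K T (up q) ∈ U := by
    rw [lc_up]
    simpa using U.sub_mem hy (hU v hv)
  have h2 := hT _ h1
  rw [← lc_up, h2]
  simpa using hv

theorem ext_PI {J : Type} {V : Submodule ℚ W} (hV : PI V) {U : Submodule K W}
    (hU : ∀ v ∈ V, v ∈ U) {T : J → W}
    (hT : ∀ c : J →₀ K, Finsupp.linearCombination K T c ∈ U → c = 0) :
    PI (V ⊔ Submodule.span ℚ (Set.range T)) := by
  intro ι F c v' hv' hs τ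
  have : ∀ k, ∃ v ∈ V, ∃ q : J →₀ ℚ, k ∈ F → v' k = v + Finsupp.linearCombination ℚ T q := by
    intro k
    by_cases hk : k ∈ F
    · obtain ⟨v, hv, q, e⟩ := mem_sup_range (hv' k hk)
      exact ⟨v, hv, q, fun _ => e⟩
    · exact ⟨0, V.zero_mem, 0, fun h => absurd h hk⟩
  choose v hv q hq using this
  have e1 : ∑ k ∈ F, c k • v' k =
      ∑ k ∈ F, c k • v k + Finsupp.linearCombination K T (∑ k ∈ F, c k • up (q k)) := by
    rw [map_sum, ← Finset.sum_add_distrib]
    refine Finset.sum_congr rfl (fun k hk => ?_)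
    rw [hq k hk, smul_add, map_smul, lc_up]
  have hm : ∑ k ∈ F, c k • v k ∈ U := U.sum_mem (fun k _ => U.smul_mem _ (hU _ (hv k)))
  have h0 : ∑ k ∈ F, c k • up (q k) = 0 := by
    apply hT
    rw [e1] at hs
    rw [eq_neg_of_add_eq_zero_right hs]
    exact U.neg_mem hm
  rw [e1, h0, map_zero, add_zero] at hs
  have h1 := hV ι F c v (fun k _ => hv k) hs τ
  have e2 : ∑ k ∈ F, τ (c k) • v' k =
      ∑ k ∈ F, τ (c k) • v k + Finsupp.linearCombination ℚ T (∑ k ∈ F, τ (c k) • q k) := by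
    rw [map_sum, ← Finset.sum_add_distrib]
    refine Finset.sum_congr rfl (fun k hk => ?_)
    rw [hq k hk, smul_add, map_smul]
  have h2 : ∑ k ∈ F, τ (c k) • q k = 0 := by
    ext j
    have := congrArg (fun z : J →₀ K => τ (z j)) h0
    simp only [Finsupp.finset_sum_apply, Finsupp.smul_apply, up_apply, smul_eq_mul, map_sum,
      Finsupp.coe_zero, Pi.zero_apply, map_zero] at this
    simp only [Finsupp.finset_sum_apply, Finsupp.smul_apply, smul_eq_mul, Finsupp.coe_zero,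
      Pi.zero_apply]
    rw [← this]
    refine Finset.sum_congr rfl (fun k _ => ?_)
    rw [mul_comm (c k), ← smul_eq_mul ((q k j : ℚ) : K), Rat.cast_smul_eq_qsmul, map_smul,
      smul_eq_mul, mul_comm]
  rw [e2, h1, h2, map_zero, add_zero]

theorem PI.indep {V : Submodule ℚ W} (hV : PI V) {S : Set W} (hS : ∀ s ∈ S, s ∈ V)
    (h : LinearIndepOn ℚ id S) : LinearIndepOn K id S := by
  rw [LinearIndepOn, linearIndependent_iff'] at h ⊢
  intro F g hg s hs
  refine (Module.forall_dual_apply_eq_zero_iff ℚ (g s)).1 (fun τ => ?_)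
  exact h F (fun k => τ (g k)) (hV S F g _ (fun k _ => hS k k.2) hg τ) s hs

theorem sup_le_K {J : Type} {V : Submodule ℚ W} {T : J → W} (S : Submodule K W)
    (h1 : ∀ v ∈ V, v ∈ S) (h2 : ∀ j, T j ∈ S) :
    ∀ v ∈ V ⊔ Submodule.span ℚ (Set.range T), v ∈ S := by
  have : V ⊔ Submodule.span ℚ (Set.range T) ≤ S.restrictScalars ℚ := by
    refine sup_le h1 (Submodule.span_le.2 ?_)
    rintro _ ⟨j, rfl⟩
    exact h2 j
  exact this

theorem sup_cl {J : Type} {V V' : Submodule ℚ W} {T : J → W} (f : Module.End K W)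
    (h1 : ∀ v ∈ V, f v ∈ V') (h2 : ∀ j, f (T j) ∈ V') :
    ∀ v ∈ V ⊔ Submodule.span ℚ (Set.range T), f v ∈ V' := by
  have : V ⊔ Submodule.span ℚ (Set.range T) ≤ V'.comap (f.restrictScalars ℚ) := by
    refine sup_le h1 (Submodule.span_le.2 ?_)
    rintro _ ⟨j, rfl⟩
    exact h2 j
  exact this

theorem mk_fs_le {J : Type} {κ : Cardinal} (hκ : ℵ₀ ≤ κ) (hJ : #J ≤ κ) : #(J →₀ ℚ) ≤ κ := by
  rcases isEmpty_or_nonempty J with h | h
  · exact (Cardinal.mk_le_aleph0).trans hκ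
  · rw [Cardinal.mk_finsupp_of_infinite']
    exact max_le hJ (by simpa using hκ)

theorem mk_sup_le {J : Type} {κ : Cardinal} (hκ : ℵ₀ ≤ κ) (hJ : #J ≤ κ) {V : Submodule ℚ W}
    (hV : #V ≤ κ) (T : J → W) : #(V ⊔ Submodule.span ℚ (Set.range T) : Submodule ℚ W) ≤ κ := by
  have h1 : ((V ⊔ Submodule.span ℚ (Set.range T) : Submodule ℚ W) : Set W) ⊆
      Set.range (fun p : V × (J →₀ ℚ) => (p.1 : W) + Finsupp.linearCombination ℚ T p.2) := by
    intro y hy
    obtain ⟨v, hv, q, rfl⟩ := mem_sup_range hy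
    exact ⟨(⟨v, hv⟩, q), rfl⟩
  refine (Cardinal.mk_le_mk_of_subset h1).trans (Cardinal.mk_range_le.trans ?_)
  simp only [Cardinal.mk_prod, Cardinal.lift_id]
  exact (mul_le_mul' hV (mk_fs_le hκ hJ)).trans (Cardinal.mul_eq_self hκ).le

/-- words in the letters of `A` -/
abbrev Wd (A : Set I) : Type := {m : List I // ∀ j ∈ m, j ∈ A}

theorem mk_Wd_le {A : Set I} {κ : Cardinal} (hκ : ℵ₀ ≤ κ) (hA : #A ≤ κ) : #(Wd A) ≤ κ := by
  have hs : Function.Surjective (fun m : List A =>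
      (⟨m.map Subtype.val, by simp only [List.mem_map]; rintro _ ⟨a, _, rfl⟩; exact a.2⟩ : Wd A)) := by
    rintro ⟨m, hm⟩
    refine ⟨m.attachWith _ hm, ?_⟩
    simp
  exact (Cardinal.mk_le_of_surjective hs).trans
    ((Cardinal.mk_list_le_max _).trans (max_le hκ hA))

structure St where
  A : Set I
  φ : I → Module.End K W
  V : Submodule ℚ W
  Y : Set W

structure Inv (σ : St) : Prop where
  op : ∀ i ∈ σ.A, ∃ (x0 : X) (d : W), d ∈ WA σ.A ∧ d ∈ Wc ∧ d ∈ Lam 0 ∧
    ∀ f, σ.φ i f = sh i f + f x0 • d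
  VA : ∀ v ∈ σ.V, v ∈ WA σ.A
  Vc : ∀ v ∈ σ.V, v ∈ Wc
  bV : ∀ l, b l ∈ σ.V
  cl : ∀ i ∈ σ.A, ∀ v ∈ σ.V, σ.φ i v ∈ σ.V
  pi : PI σ.V
  YA : ∀ y ∈ σ.Y, y ∈ WA σ.A
  YV : ∀ y ∈ σ.Y, y ∉ σ.V

def Good (κ : Cardinal) (σ : St) : Prop := Inv σ ∧ #σ.A ≤ κ ∧ #σ.V ≤ κ ∧ #σ.Y ≤ κ

instance : Preorder St where
  le σ τ := σ.A ⊆ τ.A ∧ (∀ i ∈ σ.A, τ.φ i = σ.φ i) ∧ σ.V ≤ τ.V ∧ σ.Y ⊆ τ.Y
  le_refl σ := ⟨subset_rfl, fun _ _ => rfl, le_rfl, subset_rfl⟩
  le_trans σ τ ρ h1 h2 := ⟨h1.1.trans h2.1,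
    fun i hi => (h2.2.1 i (h1.1 hi)).trans (h1.2.1 i hi), h1.2.2.1.trans h2.2.2.1,
    h1.2.2.2.trans h2.2.2.2⟩

theorem St.le_def {σ τ : St} :
    σ ≤ τ ↔ σ.A ⊆ τ.A ∧ (∀ i ∈ σ.A, τ.φ i = σ.φ i) ∧ σ.V ≤ τ.V ∧ σ.Y ⊆ τ.Y := Iff.rfl

theorem Inv.WA_cl {σ : St} (h : Inv σ) : ∀ i ∈ σ.A, ∀ v ∈ WA σ.A, σ.φ i v ∈ WA σ.A := by
  intro i hi v hv
  obtain ⟨x0, d, h1, -, -, h4⟩ := h.op i hi
  rw [h4]
  exact Submodule.add_mem _ (sh_WA hi hv) (Submodule.smul_mem _ _ h1)

theorem Inv.Wc_cl {σ : St} (h : Inv σ) : ∀ i ∈ σ.A, ∀ v ∈ Wc, σ.φ i v ∈ Wc := by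
  intro i hi v hv
  obtain ⟨x0, d, -, h2, -, h4⟩ := h.op i hi
  rw [h4]
  exact Submodule.add_mem _ (sh_Wc i hv) (Submodule.smul_mem _ _ h2)

theorem Inv.Lam_cl {σ : St} (h : Inv σ) : ∀ i ∈ σ.A, ∀ v ∈ Lam 0, σ.φ i v ∈ Lam 0 := by
  intro i hi v hv
  obtain ⟨x0, d, -, -, h3, h4⟩ := h.op i hi
  rw [h4]
  exact AddSubgroup.add_mem _ (sh_Lam i hv) (smul_Lam0 (hv x0) h3)

/-- the operator is a rational polynomial in the letters on the test family -/
def H1 (σ : St) (g h : L → W) : Prop :=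
  ∃ ε : List I →₀ ℚ, (∀ m ∈ ε.support, ∀ j ∈ m, j ∈ σ.A) ∧
    ∀ k, h k = Finsupp.linearCombination ℚ (fun m => wd σ.φ m (g k)) ε

/-- the operator has been killed -/
def H2 (σ : St) (s g h : L → W) : Prop :=
  ∃ (t : I) (π : K) (k : L), ‖π‖ ≤ 1 ∧ xt t + π • g k ∈ σ.V ∧ ∃ y ∈ σ.Y,
    ∀ N, y - (∑ n ∈ Finset.range N, (2 : K) ^ n • s (pre t n) + π • h k) ∈ Lam N

theorem step_kill {κ : Cardinal} (hκ : ℵ₀ ≤ κ) (hκc : κ < 𝔠) {σ : St} (hσ : Good κ σ)
    (s g h : L → W) (hs : ∀ l, s l ∈ σ.V ∧ s l ∈ Lam 0) (hg : ∀ l, g l ∈ σ.V)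
    (hh : ∀ l, h l ∈ σ.V) :
    ∃ τ, σ ≤ τ ∧ Good κ τ ∧ (H1 τ g h ∨ H2 τ s g h) := by
  classical
  obtain ⟨hI, hA, hV, hY⟩ := hσ
  have hop := hI.op
  choose x0 d hd using hop
  set D : Set W := Set.range (fun p : Wd σ.A × σ.A => wd sh p.1.1 (d p.2.1 p.2.2)) with hD
  have hDc : #D ≤ κ := by
    refine Cardinal.mk_range_le.trans ?_
    simp only [Cardinal.mk_prod, Cardinal.lift_id]
    exact (mul_le_mul' (mk_Wd_le hκ hA) hA).trans (Cardinal.mul_eq_self hκ).le
  have hDsh : ∀ j ∈ σ.A, ∀ f ∈ Submodule.span K D, sh j f ∈ Submodule.span K D := by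
    intro j hj
    have : Submodule.span K D ≤ (Submodule.span K D).comap (sh j) := by
      refine Submodule.span_le.2 ?_
      rintro _ ⟨⟨⟨m, hm⟩, i⟩, rfl⟩
      refine Submodule.subset_span ⟨⟨⟨j :: m, ?_⟩, i⟩, ?_⟩
      · intro k hk
        rcases List.mem_cons.1 hk with rfl | hk
        · exact hj
        · exact hm k hk
      · simp only [wd_cons]
    exact this
  have hcorr : ∀ m : List I, (∀ j ∈ m, j ∈ σ.A) → ∀ f,
      wd σ.φ m f - wd sh m f ∈ Submodule.span K D := by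
    intro m hm f
    induction m with
    | nil => simp
    | cons j m ih =>
      have hj := hm j (by simp)
      rw [wd_cons, wd_cons, (hd j hj).2.2.2]
      have e : sh j (wd σ.φ m f) + wd σ.φ m f (x0 j hj) • d j hj - sh j (wd sh m f) =
          sh j (wd σ.φ m f - wd sh m f) + wd σ.φ m f (x0 j hj) • d j hj := by
        rw [map_sub]; abel
      rw [e]
      refine Submodule.add_mem _ (hDsh j hj _ (ih (fun k hk => hm k (by simp [hk]))))
        (Submodule.smul_mem _ _ (Submodule.subset_span ⟨⟨⟨[], by simp⟩, ⟨j, hj⟩⟩, by simp⟩))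
  set Z : Set W := ((σ.V : Set W) ∪ σ.Y) ∪ D with hZ
  have hZc : #Z < 𝔠 := by
    refine lt_of_le_of_lt ?_ hκc
    refine (Cardinal.mk_union_le _ _).trans ?_
    refine (add_le_add ((Cardinal.mk_union_le _ _).trans
      ((add_le_add hV hY).trans (Cardinal.add_eq_self hκ).le)) hDc).trans
      (Cardinal.add_eq_self hκ).le
  obtain ⟨t, ht⟩ := exists_generic Z hZc
  set U := Submodule.span K Z with hU
  have hVU : ∀ v ∈ σ.V, v ∈ U := fun v hv => Submodule.subset_span (Or.inl (Or.inl hv))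
  have hYU : ∀ v ∈ σ.Y, v ∈ U := fun v hv => Submodule.subset_span (Or.inl (Or.inr hv))
  have hDU : Submodule.span K D ≤ U := Submodule.span_mono Set.subset_union_right
  have hind : ∀ (π : K) (k : L) (c : Wd σ.A →₀ K),
      Finsupp.linearCombination K (fun m : Wd σ.A => wd σ.φ m.1 (xt t + π • g k)) c ∈ U →
      c = 0 := by
    intro π k c hc
    have h1 : Finsupp.linearCombination K (fun m : Wd σ.A => wd σ.φ m.1 (xt t + π • g k)) c -
        Finsupp.linearCombination K (fun m : Wd σ.A => wd sh m.1 (xt t)) c ∈ U := by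
      simp only [Finsupp.linearCombination_apply, Finsupp.sum]
      rw [← Finset.sum_sub_distrib]
      refine U.sum_mem (fun m _ => ?_)
      rw [← smul_sub, map_add, add_sub_right_comm, map_smul]
      exact U.smul_mem _ (U.add_mem (hDU (hcorr m.1 m.2 _))
        (U.smul_mem _ (hVU _ (wd_mem hI.cl m.2 (hg k)))))
    have h2 : Finsupp.linearCombination K (fun m : Wd σ.A => wd sh m.1 (xt t)) c ∈ U := by
      simpa using U.sub_mem hc h1
    have h3 := ht (c.mapDomain Subtype.val) (by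
      rw [Finsupp.linearCombination_mapDomain]
      exact h2)
    exact Finsupp.mapDomain_injective Subtype.val_injective (by rw [h3]; simp)
  obtain ⟨y0, hy0, hy0'⟩ := exists_lim (fun n => (2 : K) ^ n • s (pre t n))
    (fun n => smul_Lam0 (norm_two_pow n).le (hs _).2)
  have hy0A : y0 ∈ WA σ.A := by
    intro m l hm
    apply hy0'
    intro n
    simp [hI.VA _ (hs (pre t n)).1 m l hm]
  by_cases hc : ∃ (π : K) (k : L), ‖π‖ ≤ 1 ∧ y0 + π • h k ∉ σ.V ⊔ Submodule.span ℚ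
      (Set.range (fun m : Wd σ.A => wd σ.φ m.1 (xt t + π • g k)))
  · obtain ⟨π, k, hπ, hy⟩ := hc
    have hxA : xt t + π • g k ∈ WA σ.A :=
      Submodule.add_mem _ (xt_WA _ _) (Submodule.smul_mem _ _ (hI.VA _ (hg k)))
    have hxc : xt t + π • g k ∈ Wc :=
      Submodule.add_mem _ (xt_Wc _) (Submodule.smul_mem _ _ (hI.Vc _ (hg k)))
    refine ⟨⟨σ.A, σ.φ, σ.V ⊔ Submodule.span ℚ
      (Set.range (fun m : Wd σ.A => wd σ.φ m.1 (xt t + π • g k))), insert (y0 + π • h k) σ.Y⟩,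
      ⟨subset_rfl, fun _ _ => rfl, le_sup_left, Set.subset_insert _ _⟩,
      ⟨⟨hI.op, ?_, ?_, ?_, ?_, ?_, ?_, ?_⟩, hA, ?_, ?_⟩, Or.inr ?_⟩
    · exact sup_le_K _ hI.VA (fun m => wd_mem hI.WA_cl m.2 hxA)
    · exact sup_le_K _ hI.Vc (fun m => wd_mem hI.Wc_cl m.2 hxc)
    · exact fun l => Submodule.mem_sup_left (hI.bV l)
    · intro i hi
      refine sup_cl _ (fun v hv => Submodule.mem_sup_left (hI.cl i hi v hv)) (fun m => ?_)
      refine Submodule.mem_sup_right (Submodule.subset_span ⟨⟨i :: m.1, ?_⟩, ?_⟩)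
      · intro k hk
        rcases List.mem_cons.1 hk with rfl | hk
        · exact hi
        · exact m.2 k hk
      · simp only [wd_cons]
    · exact ext_PI hI.pi hVU (hind π k)
    · rintro y (rfl | hy')
      · exact Submodule.add_mem _ hy0A (Submodule.smul_mem _ _ (hI.VA _ (hh k)))
      · exact hI.YA y hy'
    · rintro y (rfl | hy')
      · exact hy
      · exact fun hm => hI.YV y hy' (ext_mem hVU (hind π k) (hYU y hy') hm)
    · exact mk_sup_le hκ (mk_Wd_le hκ hA) hV _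
    · refine Cardinal.mk_insert_le.trans ?_
      exact (add_le_add hY (Cardinal.one_le_aleph0.trans hκ)).trans (Cardinal.add_eq_self hκ).le
    · refine ⟨t, π, k, hπ, Submodule.mem_sup_right (Submodule.subset_span ⟨⟨[], by simp⟩, by simp⟩),
        _, Set.mem_insert _ _, fun N => ?_⟩
      rw [add_sub_add_right_eq_sub]
      exact hy0 N
  · push Not at hc
    have key : ∀ k, ∃ v ∈ σ.V, ∃ q : Wd σ.A →₀ ℚ,
        h k = Finsupp.linearCombination ℚ (fun m : Wd σ.A => wd σ.φ m.1 (g k)) q ∧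
        y0 = v + Finsupp.linearCombination ℚ (fun m : Wd σ.A => wd σ.φ m.1 (xt t)) q := by
      intro k
      have h1 : ∀ π : Metric.closedBall (0 : K) 1, ∃ p : σ.V × (Wd σ.A →₀ ℚ),
          y0 + (π : K) • h k = p.1 + Finsupp.linearCombination ℚ
            (fun m : Wd σ.A => wd σ.φ m.1 (xt t + (π : K) • g k)) p.2 := by
        intro π
        obtain ⟨v, hv, q, e⟩ := mem_sup_range (hc π k (mem_closedBall_zero_iff.1 π.2))
        exact ⟨(⟨v, hv⟩, q), e⟩
      choose p hp using h1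
      have hni : ¬ Function.Injective p := by
        intro hi
        have h2 := Cardinal.mk_le_of_injective hi
        rw [mk_ball] at h2
        simp only [Cardinal.mk_prod, Cardinal.lift_id] at h2
        have h3 := (mul_le_mul' hV (mk_fs_le hκ (mk_Wd_le hκ hA))).trans
          (Cardinal.mul_eq_self hκ).le
        exact absurd (h2.trans h3) (not_le.2 hκc)
      obtain ⟨π, π', e, hne⟩ := Function.not_injective_iff.1 hni
      have hsplit : ∀ (ρ : K) (q : Wd σ.A →₀ ℚ), Finsupp.linearCombination ℚ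
            (fun m : Wd σ.A => wd σ.φ m.1 (xt t + ρ • g k)) q =
          Finsupp.linearCombination ℚ (fun m : Wd σ.A => wd σ.φ m.1 (xt t)) q +
            ρ • Finsupp.linearCombination ℚ (fun m : Wd σ.A => wd σ.φ m.1 (g k)) q := by
        intro ρ q
        simp only [Finsupp.linearCombination_apply, Finsupp.sum, map_add, map_smul, smul_add,
          Finset.sum_add_distrib, Finset.smul_sum]
        congr 1
        exact Finset.sum_congr rfl (fun m _ => smul_comm _ _ _)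
      have e1 := hp π
      have e2 := hp π'
      rw [← e] at e2
      rw [hsplit] at e1 e2
      set E := Finsupp.linearCombination ℚ (fun m : Wd σ.A => wd σ.φ m.1 (g k)) (p π).2
      set E' := Finsupp.linearCombination ℚ (fun m : Wd σ.A => wd σ.φ m.1 (xt t)) (p π).2
      have e3 : ((π : K) - π') • (h k - E) = 0 := by
        have : ((π : K) - π') • (h k - E) = (y0 + (π : K) • h k) - (y0 + (π' : K) • h k) -
            (((p π).1 + (E' + (π : K) • E)) - ((p π).1 + (E' + (π' : K) • E))) := by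
          module
        rw [this, e1, e2, sub_self]
      have e4 : h k = E := by
        rcases smul_eq_zero.1 e3 with h0 | h0
        · exact absurd (Subtype.ext (sub_eq_zero.1 h0)) hne
        · exact sub_eq_zero.1 h0
      refine ⟨(p π).1, (p π).1.2, (p π).2, e4, ?_⟩
      rw [e4, ← add_assoc] at e1
      exact add_right_cancel e1
    choose v hv q hq1 hq2 using key
    have hqq : ∀ k, q k = q [] := by
      intro k
      have h1 := hind 0 k (up (q k - q [])) (by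
        rw [lc_up, map_sub]
        simp only [zero_smul, add_zero]
        have : Finsupp.linearCombination ℚ (fun m : Wd σ.A => wd σ.φ m.1 (xt t)) (q k) -
            Finsupp.linearCombination ℚ (fun m : Wd σ.A => wd σ.φ m.1 (xt t)) (q []) =
            v [] - v k := by
          have := (hq2 k).symm.trans (hq2 [])
          rw [sub_eq_sub_iff_add_eq_add, add_comm, this]
        rw [this]
        exact hVU _ (σ.V.sub_mem (hv _) (hv _)))
      ext j
      have := congrArg (fun z : Wd σ.A →₀ K => z j) h1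
      simpa [sub_eq_zero] using this
    refine ⟨σ, le_rfl, ⟨hI, hA, hV, hY⟩, Or.inl ⟨(q []).mapDomain Subtype.val, ?_, fun k => ?_⟩⟩
    · intro m hm
      obtain ⟨m', -, rfl⟩ := Finset.mem_image.1 (Finsupp.mapDomain_support hm)
      exact m'.2
    · rw [Finsupp.linearCombination_mapDomain, hq1 k, hqq k]
      rfl

end Pool.Agent.H.MP_e12dda_al
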