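import Pool.Agent.H.MP_e12dda_al.B

set_option autoImplicit false

namespace Pool.Agent.H.MP_e12dda_al

open Cardinal

open Classical in
theorem tri {A : Set I} {i : I} (hi : i ∉ A) {φ : I → Module.End K W}
    (hφ : ∀ j ∈ insert i A, ∃ (x0 : X) (d : W),
      (∀ j0 m l, i ∈ m → d (j0 :: m, l) = 0) ∧ ∀ f, φ j f = sh j f + f x0 • d)
    {g w : W} (hg : g ∈ WA A) (hw : w ∈ WA A) (m : List I) (hm : ∀ j ∈ m, j ∈ insert i A)
    (m0 : List I) (hl : m.length ≤ m0.length) (n : List I) (l : L) :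
    wd φ m (sh i g + w) (m0 ++ i :: n, l) = if m = m0 then g (n, l) else 0 := by
  induction m generalizing m0 with
  | nil =>
    have h1 : w (m0 ++ i :: n, l) = 0 := hw _ _ ⟨i, by simp, hi⟩
    simp only [wd_nil, Module.End.one_apply, Pi.add_apply, h1, add_zero]
    rcases m0 with _ | ⟨j, m1⟩
    · simp [sh_cons_self]
    · rw [if_neg (by simp), List.cons_append]
      exact sh_cons_zero _ _ _ _ _ (hg _ _ ⟨i, by simp, hi⟩)
  | cons j m ih =>
    rcases m0 with _ | ⟨j0, m1⟩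
    · simp at hl
    · obtain ⟨x0, d, hd, hf⟩ := hφ j (hm j (by simp))
      rw [wd_cons, hf, List.cons_append]
      simp only [Pi.add_apply, Pi.smul_apply, smul_eq_mul]
      rw [hd j0 _ l (by simp), mul_zero, add_zero]
      by_cases e : j0 = j
      · subst e
        rw [sh_cons_self, ih (fun k hk => hm k (by simp [hk])) m1 (by simpa using hl)]
        simp
      · rw [sh_cons_ne _ _ e, if_neg]
        simp only [List.cons.injEq, not_and]
        exact fun h => absurd h.symm e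

theorem step_op {κ : Cardinal} (hκ : ℵ₀ ≤ κ) (hκc : κ < 𝔠) {σ : St} (hσ : Good κ σ)
    (u w : W) (hu : u ∈ σ.V) (hu0 : u ∈ Lam 0) (hw : w ∈ σ.V) (hw0 : w ∈ Lam 0)
    (x0 : X) (hx0 : ‖u x0‖ = 1) :
    ∃ τ, σ ≤ τ ∧ Good κ τ ∧ ∃ i ∈ τ.A, τ.φ i u = w := by
  classical
  obtain ⟨hI, hA, hV, hY⟩ := hσ
  obtain ⟨i, hi⟩ : ∃ i, i ∉ σ.A := by
    by_contra hcon
    push Not at hcon
    have : σ.A = Set.univ := Set.eq_univ_of_forall hcon
    rw [this, Cardinal.mk_univ, mk_I] at hA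
    exact absurd hA (not_le.2 hκc)
  have hux : u x0 ≠ 0 := by
    intro e
    rw [e] at hx0
    simp at hx0
  have hune : u ≠ 0 := fun e => hux (by rw [e]; rfl)
  set c : K := (u x0)⁻¹ with hc
  have hcn : ‖c‖ ≤ (1 / 2 : ℝ) ^ 0 := by simp [hc, hx0]
  set d : W := c • (w - sh i u) with hd
  set ψ : Module.End K W := sh i + (LinearMap.proj x0 : W →ₗ[K] K).smulRight d with hψ
  have hψf : ∀ f, ψ f = sh i f + f x0 • d := fun f => by simp [hψ]
  have hψu : ψ u = w := by
    rw [hψf, hd, smul_smul, hc, mul_inv_cancel₀ hux, one_smul, add_sub_cancel]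
  have hψs : ∀ f, ψ f = sh i (f - (f x0 * c) • u) + (f x0 * c) • w := by
    intro f
    rw [hψf, hd, map_sub, map_smul, smul_smul, smul_sub]
    abel
  set φ := Function.update σ.φ i ψ with hφ
  have hφi : φ i = ψ := Function.update_self _ _ _
  have hφj : ∀ j ∈ σ.A, φ j = σ.φ j := fun j hj =>
    Function.update_of_ne (fun e : j = i => hi (e ▸ hj)) _ _
  have hsub : σ.A ⊆ insert i σ.A := Set.subset_insert _ _
  have hdA : d ∈ WA (insert i σ.A) := Submodule.smul_mem _ _ (Submodule.sub_mem _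
    (WA_mono hsub (hI.VA _ hw)) (sh_WA (Set.mem_insert _ _) (WA_mono hsub (hI.VA _ hu))))
  have hdc : d ∈ Wc := Submodule.smul_mem _ _ (Submodule.sub_mem _ (hI.Vc _ hw)
    (sh_Wc _ (hI.Vc _ hu)))
  have hd0 : d ∈ Lam 0 := smul_Lam0 hcn (AddSubgroup.sub_mem _ hw0 (sh_Lam _ hu0))
  have hop : ∀ j ∈ insert i σ.A, ∃ (x0 : X) (d : W), d ∈ WA (insert i σ.A) ∧ d ∈ Wc ∧ d ∈ Lam 0 ∧
      ∀ f, φ j f = sh j f + f x0 • d := by
    rintro j (rfl | hj)
    · exact ⟨x0, d, hdA, hdc, hd0, fun f => by rw [hφi, hψf]⟩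
    · obtain ⟨x1, d1, h1, h2, h3, h4⟩ := hI.op j hj
      exact ⟨x1, d1, WA_mono hsub h1, h2, h3, fun f => by rw [hφj j hj, h4]⟩
  have hop' : ∀ j ∈ insert i σ.A, ∃ (x0 : X) (d : W),
      (∀ j0 m l, i ∈ m → d (j0 :: m, l) = 0) ∧ ∀ f, φ j f = sh j f + f x0 • d := by
    rintro j (rfl | hj)
    · refine ⟨x0, d, fun j0 m l hm => ?_, fun f => by rw [hφi, hψf]⟩
      have h1 : w (j0 :: m, l) = 0 := hI.VA _ hw _ _ ⟨j, by simp [hm], hi⟩
      have h2 : sh j u (j0 :: m, l) = 0 := sh_cons_zero _ _ _ _ _ (hI.VA _ hu _ _ ⟨j, hm, hi⟩)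
      simp [hd, h1, h2]
    · obtain ⟨x1, d1, h1, -, -, h4⟩ := hI.op j hj
      exact ⟨x1, d1, fun j0 m l hm => h1 _ _ ⟨i, by simp [hm], hi⟩, fun f => by rw [hφj j hj, h4]⟩
  have hWA : ∀ j ∈ insert i σ.A, ∀ v ∈ WA (insert i σ.A), φ j v ∈ WA (insert i σ.A) := by
    intro j hj v hv
    obtain ⟨x1, d1, h1, -, -, h4⟩ := hop j hj
    rw [h4]
    exact Submodule.add_mem _ (sh_WA hj hv) (Submodule.smul_mem _ _ h1)
  have hWc : ∀ j ∈ insert i σ.A, ∀ v ∈ Wc, φ j v ∈ Wc := by
    intro j hj v hv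
    obtain ⟨x1, d1, -, h2, -, h4⟩ := hop j hj
    rw [h4]
    exact Submodule.add_mem _ (sh_Wc j hv) (Submodule.smul_mem _ _ h2)
  obtain ⟨S, hS1, hS2, hS3, hS4⟩ := exists_linearIndepOn_id_extension
    (K := ℚ) (s := {u}) (t := (σ.V : Set W)) (LinearIndepOn.singleton hune)
    (Set.singleton_subset_iff.2 hu)
  have huS : u ∈ S := hS2 rfl
  have hS5 := hI.pi.indep hS1 hS4
  set T : Wd (insert i σ.A) × {s : S // s.1 ≠ u} → W := fun p => wd φ p.1.1 (φ i p.2.1.1) with hT
  have hind : ∀ q : Wd (insert i σ.A) × {s : S // s.1 ≠ u} →₀ K,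
      Finsupp.linearCombination K T q ∈ WA σ.A → q = 0 := by
    intro q hq
    by_contra hne
    obtain ⟨p0, hp0, hmax⟩ := Finset.exists_max_image q.support (fun p => p.1.1.length)
      (Finsupp.support_nonempty_iff.2 hne)
    have h1 : ∑ p ∈ q.support.filter (fun p => p.1 = p0.1),
        q p • (p.2.1.1 - (p.2.1.1 x0 * c) • u) = 0 := by
      funext ⟨n, l⟩
      have h2 := hq (p0.1.1 ++ i :: n) l ⟨i, by simp, hi⟩
      simp only [Finsupp.linearCombination_apply, Finsupp.sum, Finset.sum_apply, Pi.smul_apply,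
        smul_eq_mul] at h2
      rw [Finset.sum_filter, Finset.sum_apply, Pi.zero_apply, ← h2]
      refine Finset.sum_congr rfl (fun p hp => ?_)
      have hs := hI.VA _ (hS1 p.2.1.2)
      simp only [hT]
      rw [hφi, hψs, tri hi hop' (Submodule.sub_mem _ hs (Submodule.smul_mem _ _ (hI.VA _ hu)))
        (Submodule.smul_mem _ _ (hI.VA _ hw)) _ p.1.2 _ (hmax p hp)]
      by_cases e : p.1 = p0.1
      · simp [e]
      · rw [if_neg e, if_neg (fun e' => e (Subtype.ext e'))]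
        simp
    have h3 : ∃ f : W →ₗ[K] K, f p0.2.1.1 = 1 ∧ ∀ s : S, s ≠ p0.2.1 → f s.1 = 0 := by
      have hS6 : LinearIndependent K (fun x : S => (x : W)) := hS5
      obtain ⟨f, hf⟩ := ((Finsupp.lapply p0.2.1).comp hS6.repr).exists_extend
      have hv : ∀ s : S, f s.1 = (Finsupp.single s (1 : K) : S →₀ K) p0.2.1 := by
        intro s
        have := LinearMap.congr_fun hf ⟨s.1, Submodule.subset_span ⟨s, rfl⟩⟩
        simp only [LinearMap.comp_apply, Submodule.subtype_apply, Finsupp.lapply_apply] at this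
        rw [this, hS6.repr_eq_single s _ rfl]
      refine ⟨f, by rw [hv]; simp, fun s hs => ?_⟩
      rw [hv, Finsupp.single_eq_of_ne hs.symm]
    obtain ⟨f, hf1, hf2⟩ := h3
    have hfu : f u = 0 := hf2 ⟨u, huS⟩ (fun e => p0.2.2 (by rw [← e]))
    have h4 := congrArg f h1
    simp only [map_sum, map_smul, map_sub, hfu, smul_eq_mul, mul_zero, sub_zero, map_zero] at h4
    rw [Finset.sum_eq_single p0] at h4
    · rw [hf1, mul_one] at h4
      exact Finsupp.mem_support_iff.1 hp0 h4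
    · intro p hp hne'
      rw [hf2 p.2.1, mul_zero]
      intro e
      exact hne' (Prod.ext (Finset.mem_filter.1 hp).2 (Subtype.ext e))
    · intro h
      exact absurd (by simpa using Finsupp.mem_support_iff.1 hp0) h
  have hA' : #(insert i σ.A : Set I) ≤ κ := by
    refine Cardinal.mk_insert_le.trans ?_
    exact (add_le_add hA (Cardinal.one_le_aleph0.trans hκ)).trans (Cardinal.add_eq_self hκ).le
  refine ⟨⟨insert i σ.A, φ, σ.V ⊔ Submodule.span ℚ (Set.range T), σ.Y⟩,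
    ⟨hsub, hφj, le_sup_left, subset_rfl⟩, ⟨⟨hop, ?_, ?_, ?_, ?_, ?_, ?_, ?_⟩, hA', ?_, hY⟩,
    i, Set.mem_insert _ _, by simp only [hφi, hψu]⟩
  · exact sup_le_K _ (fun v hv => WA_mono hsub (hI.VA v hv)) (fun p => wd_mem hWA p.1.2
      (hWA i (Set.mem_insert _ _) _ (WA_mono hsub (hI.VA _ (hS1 p.2.1.2)))))
  · exact sup_le_K _ hI.Vc (fun p => wd_mem hWc p.1.2
      (hWc i (Set.mem_insert _ _) _ (hI.Vc _ (hS1 p.2.1.2))))
  · exact fun l => Submodule.mem_sup_left (hI.bV l)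
  · intro j hj
    refine sup_cl _ ?_ (fun p => ?_)
    · rcases hj with rfl | hj
      · have : Submodule.span ℚ S ≤ (σ.V ⊔ Submodule.span ℚ (Set.range T)).comap
            ((φ j).restrictScalars ℚ) := by
          refine Submodule.span_le.2 (fun s hs => ?_)
          show φ j s ∈ σ.V ⊔ Submodule.span ℚ (Set.range T)
          by_cases e : s = u
          · rw [e, hφi, hψu]
            exact Submodule.mem_sup_left hw
          · exact Submodule.mem_sup_right (Submodule.subset_span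
              ⟨⟨⟨[], by simp⟩, ⟨⟨s, hs⟩, e⟩⟩, by simp [hT]⟩)
        exact fun v hv => this (hS3 hv)
      · intro v hv
        show φ j v ∈ _
        rw [hφj j hj]
        exact Submodule.mem_sup_left (hI.cl j hj v hv)
    · refine Submodule.mem_sup_right (Submodule.subset_span ⟨⟨⟨j :: p.1.1, ?_⟩, p.2⟩, ?_⟩)
      · intro k hk
        rcases List.mem_cons.1 hk with rfl | hk
        · exact hj
        · exact p.1.2 k hk
      · simp only [hT, wd_cons]
  · exact ext_PI hI.pi hI.VA hind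
  · exact fun y hy => WA_mono hsub (hI.YA y hy)
  · exact fun y hy hm => hI.YV y hy (ext_mem hI.VA hind (hI.YA y hy) hm)
  · refine mk_sup_le hκ ?_ hV _
    simp only [Cardinal.mk_prod, Cardinal.lift_id]
    refine (mul_le_mul' (mk_Wd_le hκ hA') ?_).trans (Cardinal.mul_eq_self hκ).le
    exact (Cardinal.mk_subtype_le _).trans ((Cardinal.mk_le_mk_of_subset hS1).trans hV)

end Pool.Agent.H.MP_e12dda_al
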