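import Pool.Agent.H.MP_e12dda_al.C

set_option autoImplicit false

namespace Pool.Agent.H.MP_e12dda_al

open Cardinal

theorem recur {P O : Type} [Preorder P] [LinearOrder O] [WellFoundedLT O] [Nonempty P]
    (Q : O → P → Prop) (R : O → P → P → Prop)
    (step : ∀ (ξ : O) (σ : Set.Iio ξ → P), Monotone σ → (∀ z, Q z.1 (σ z)) →
      ∃ τ, Q ξ τ ∧ ∀ z, σ z ≤ τ ∧ R ξ (σ z) τ) :
    ∃ σ : O → P, Monotone σ ∧ (∀ ξ, Q ξ (σ ξ)) ∧ ∀ ζ ξ, ζ < ξ → R ξ (σ ζ) (σ ξ) := by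
  classical
  let F : ∀ ξ : O, (∀ z, z < ξ → P) → P := fun ξ prev =>
    if h : ∃ τ, Q ξ τ ∧ ∀ z : Set.Iio ξ, prev z.1 z.2 ≤ τ ∧ R ξ (prev z.1 z.2) τ then h.choose
    else Classical.arbitrary P
  let σ : O → P := (wellFounded_lt (α := O)).fix F
  have hσ : ∀ ξ, σ ξ = F ξ (fun z _ => σ z) := fun ξ => WellFounded.fix_eq _ F ξ
  have key : ∀ ξ, Q ξ (σ ξ) ∧ ∀ z : Set.Iio ξ, σ z.1 ≤ σ ξ ∧ R ξ (σ z.1) (σ ξ) := by
    intro ξ
    induction ξ using WellFoundedLT.induction with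
    | ind ξ ih =>
      have h : ∃ τ, Q ξ τ ∧ ∀ z : Set.Iio ξ, σ z.1 ≤ τ ∧ R ξ (σ z.1) τ := by
        refine step ξ (fun z => σ z.1) ?_ (fun z => (ih z.1 z.2).1)
        intro z z' hz
        rcases eq_or_lt_of_le hz with rfl | hz
        · exact le_rfl
        · exact ((ih z'.1 z'.2).2 ⟨z.1, hz⟩).1
      have e : σ ξ = h.choose := by
        rw [hσ]
        exact dif_pos h
      rw [e]
      exact h.choose_spec
  refine ⟨σ, ?_, fun ξ => (key ξ).1, fun ζ ξ h => ((key ξ).2 ⟨ζ, h⟩).2⟩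
  intro z z' hz
  rcases eq_or_lt_of_le hz with rfl | hz
  · exact le_rfl
  · exact ((key z').2 ⟨z, hz⟩).1

theorem exists_ub {ι : Type} [LinearOrder ι] [Nonempty ι] (σ : ι → St) (hm : Monotone σ)
    (hI : ∀ z, Inv (σ z)) :
    ∃ τ, Inv τ ∧ (∀ z, σ z ≤ τ) ∧ τ.A = ⋃ z, (σ z).A ∧ (τ.V : Set W) = ⋃ z, ((σ z).V : Set W) ∧
      τ.Y = ⋃ z, (σ z).Y := by
  classical
  let φ : I → Module.End K W := fun i =>
    if h : ∃ z, i ∈ (σ z).A then (σ h.choose).φ i else sh i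
  have hφ : ∀ z, ∀ i ∈ (σ z).A, φ i = (σ z).φ i := by
    intro z i hi
    have h : ∃ z, i ∈ (σ z).A := ⟨z, hi⟩
    have e : φ i = (σ h.choose).φ i := dif_pos h
    rw [e]
    rcases le_total z h.choose with h1 | h1
    · exact (hm h1).2.1 i hi
    · exact ((hm h1).2.1 i h.choose_spec).symm
  have hdir : Directed (· ≤ ·) (fun z => (σ z).V) :=
    Monotone.directed_le (fun _ _ h => (hm h).2.2.1)
  have hV : ∀ v, v ∈ (⨆ z, (σ z).V) ↔ ∃ z, v ∈ (σ z).V := fun v =>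
    Submodule.mem_iSup_of_directed _ hdir
  have hA : ∀ z, (σ z).A ⊆ ⋃ z, (σ z).A := fun z => Set.subset_iUnion (fun z => (σ z).A) z
  refine ⟨⟨⋃ z, (σ z).A, φ, ⨆ z, (σ z).V, ⋃ z, (σ z).Y⟩, ⟨?_, ?_, ?_, ?_, ?_, ?_, ?_, ?_⟩,
    fun z => ⟨hA z, hφ z, le_iSup (fun z => (σ z).V) z, Set.subset_iUnion (fun z => (σ z).Y) z⟩,
    rfl, ?_, rfl⟩
  · intro i hi
    obtain ⟨z, hz⟩ := Set.mem_iUnion.1 hi
    obtain ⟨x0, d, h1, h2, h3, h4⟩ := (hI z).op i hz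
    exact ⟨x0, d, WA_mono (hA z) h1, h2, h3, fun f => by simp only [hφ z i hz, h4]⟩
  · intro v hv
    obtain ⟨z, hz⟩ := (hV v).1 hv
    exact WA_mono (hA z) ((hI z).VA v hz)
  · intro v hv
    obtain ⟨z, hz⟩ := (hV v).1 hv
    exact (hI z).Vc v hz
  · intro l
    exact (hV _).2 ⟨Classical.arbitrary ι, (hI _).bV l⟩
  · intro i hi v hv
    obtain ⟨z, hz⟩ := Set.mem_iUnion.1 hi
    obtain ⟨z', hz'⟩ := (hV v).1 hv
    have h1 := (hm (le_max_left z z')).1 hz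
    refine (hV _).2 ⟨max z z', ?_⟩
    simp only [hφ _ i h1]
    exact (hI _).cl i h1 v ((hm (le_max_right z z')).2.2.1 hz')
  · intro J F c v hv hs τ
    have : ∀ k, ∃ z, k ∈ F → v k ∈ (σ z).V := by
      intro k
      by_cases hk : k ∈ F
      · obtain ⟨z, hz⟩ := (hV _).1 (hv k hk)
        exact ⟨z, fun _ => hz⟩
      · exact ⟨Classical.arbitrary ι, fun h => absurd h hk⟩
    choose z hz using this
    obtain ⟨M, hM⟩ := Finset.exists_le (F.image z)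
    exact (hI M).pi J F c v
      (fun k hk => (hm (hM _ (Finset.mem_image_of_mem z hk))).2.2.1 (hz k hk)) hs τ
  · intro y hy
    obtain ⟨z, hz⟩ := Set.mem_iUnion.1 hy
    exact WA_mono (hA z) ((hI z).YA y hz)
  · intro y hy hv
    obtain ⟨z, hz⟩ := Set.mem_iUnion.1 hy
    obtain ⟨z', hz'⟩ := (hV y).1 hv
    exact (hI (max z z')).YV y ((hm (le_max_left z z')).2.2.2 hz)
      ((hm (le_max_right z z')).2.2.1 hz')
  · ext v
    simp only [SetLike.mem_coe, Set.mem_iUnion]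
    exact hV v

theorem exists_base : ∃ σ, Good ℵ₀ σ := by
  classical
  have hind : ∀ c : L →₀ K, Finsupp.linearCombination K b c ∈ (⊥ : Submodule K W) → c = 0 := by
    intro c hc
    ext l
    have := congrFun ((Submodule.mem_bot K).1 hc) ([], l)
    simp only [Finsupp.linearCombination_apply, Finsupp.sum, Finset.sum_apply, Pi.smul_apply,
      smul_eq_mul, Pi.zero_apply] at this
    rw [Finset.sum_eq_single l] at this
    · simpa [b_self] using this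
    · intro l' _ h
      rw [b_ne h.symm, mul_zero]
    · intro h
      rw [Finsupp.notMem_support_iff.1 h, zero_mul]
  have hb : ∀ v ∈ (⊥ : Submodule ℚ W), v = 0 := fun v hv => (Submodule.mem_bot ℚ).1 hv
  refine ⟨⟨∅, sh, ⊥ ⊔ Submodule.span ℚ (Set.range b), ∅⟩, ⟨?_, ?_, ?_, ?_, ?_, ?_, ?_, ?_⟩,
    by simp, ?_, by simp⟩
  · intro i hi; exact absurd hi (by simp)
  · exact sup_le_K _ (fun v hv => by rw [hb v hv]; exact Submodule.zero_mem _) (fun l => b_WA l _)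
  · exact sup_le_K _ (fun v hv => by rw [hb v hv]; exact Submodule.zero_mem _) b_Wc
  · exact fun l => Submodule.mem_sup_right (Submodule.subset_span ⟨l, rfl⟩)
  · intro i hi; exact absurd hi (by simp)
  · refine ext_PI ?_ (fun v hv => by rw [hb v hv]; exact Submodule.zero_mem _) hind
    intro J F c v hv _ τ
    exact Finset.sum_eq_zero (fun k hk => by rw [hb _ (hv k hk), smul_zero])
  · intro i hi; exact absurd hi (by simp)
  · intro i hi; exact absurd hi (by simp)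
  · exact mk_sup_le le_rfl Cardinal.mk_le_aleph0 Cardinal.mk_le_aleph0 _

theorem Good.mono {κ κ' : Cardinal} (h : κ ≤ κ') {σ : St} (hσ : Good κ σ) : Good κ' σ :=
  ⟨hσ.1, hσ.2.1.trans h, hσ.2.2.1.trans h, hσ.2.2.2.trans h⟩

theorem mk_iUnion_le_of {α ι : Type} {κ : Cardinal} (hκ : ℵ₀ ≤ κ) (hι : #ι ≤ κ) (f : ι → Set α)
    (hf : ∀ z, #(f z) ≤ κ) : #(⋃ z, f z) ≤ κ :=
  (Cardinal.mk_iUnion_le f).trans
    ((mul_le_mul' hι (ciSup_le' hf)).trans (Cardinal.mul_eq_self hκ).le)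

theorem exists_good_ub {ι : Type} [LinearOrder ι] {κ : Cardinal} (hκ : ℵ₀ ≤ κ) (hι : #ι ≤ κ)
    (σ : ι → St) (hm : Monotone σ) (hG : ∀ z, Good κ (σ z)) :
    ∃ τ, Good κ τ ∧ ∀ z, σ z ≤ τ := by
  rcases isEmpty_or_nonempty ι with h | h
  · obtain ⟨τ, hτ⟩ := exists_base
    exact ⟨τ, hτ.mono hκ, fun z => h.elim z⟩
  · obtain ⟨τ, h1, h2, h3, h4, h5⟩ := exists_ub σ hm (fun z => (hG z).1)
    refine ⟨τ, ⟨h1, ?_, ?_, ?_⟩, h2⟩
    · rw [h3]; exact mk_iUnion_le_of hκ hι _ (fun z => (hG z).2.1)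
    · show #(τ.V : Set W) ≤ κ
      rw [h4]; exact mk_iUnion_le_of hκ hι _ (fun z => (hG z).2.2.1)
    · rw [h5]; exact mk_iUnion_le_of hκ hι _ (fun z => (hG z).2.2.2)

abbrev O : Type := (𝔠 : Cardinal.{0}).ord.ToType

theorem mk_O : #O = 𝔠 := Cardinal.mk_ord_toType _

theorem mk_Iio_O (ξ : O) : #(Set.Iio ξ) < 𝔠 := Cardinal.mk_Iio_toType_ord_lt ξ

theorem O_bound {ι : Type} [Countable ι] (g : ι → O) : ∃ ξ, ∀ k, g k ≤ ξ := by
  by_contra hcon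
  push Not at hcon
  have h1 : (Set.univ : Set O) ⊆ ⋃ k, Set.Iio (g k) := by
    intro ξ _
    obtain ⟨k, hk⟩ := hcon ξ
    exact Set.mem_iUnion.2 ⟨k, hk⟩
  have h2 := (Cardinal.mk_le_mk_of_subset h1).trans Cardinal.mk_iUnion_le_sum_mk
  rw [Cardinal.mk_univ, mk_O] at h2
  have h3 := Cardinal.sum_lt_prod (fun k => #(Set.Iio (g k))) (fun _ => 𝔠) (fun k => mk_Iio_O _)
  rw [Cardinal.prod_const'] at h3
  have h4 : (𝔠 : Cardinal.{0}) ^ #ι ≤ 𝔠 ^ ℵ₀ :=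
    Cardinal.power_le_power_left Cardinal.continuum_ne_zero Cardinal.mk_le_aleph0
  rw [Cardinal.continuum_power_aleph0] at h4
  exact absurd (h2.trans_lt (h3.trans_le h4)) (lt_irrefl _)

theorem exists_enum (T : Type) [Nonempty T] (hT : #T ≤ 𝔠) :
    ∃ e : O → T, ∀ t ζ, ∃ ξ, ζ < ξ ∧ e ξ = t := by
  haveI : Nonempty O := Cardinal.mk_ne_zero_iff.1 (by rw [mk_O]; exact Cardinal.continuum_ne_zero)
  have h1 : #(T × O) ≤ #O := by
    simp only [Cardinal.mk_prod, Cardinal.lift_id, mk_O]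
    exact (mul_le_mul' hT le_rfl).trans (Cardinal.mul_eq_self Cardinal.aleph0_le_continuum).le
  obtain ⟨f⟩ := (Cardinal.le_def _ _).1 h1
  refine ⟨fun ξ => (Function.invFun f ξ).1, fun t ζ => ?_⟩
  by_contra hcon
  push Not at hcon
  have h2 : ∀ o, f (t, o) ∈ insert ζ (Set.Iio ζ) := by
    intro o
    rw [Set.Iio_insert]
    by_contra h
    refine hcon (f (t, o)) (not_le.1 h) ?_
    rw [Function.leftInverse_invFun f.injective]
  have h3 : #O ≤ #(insert ζ (Set.Iio ζ) : Set O) :=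
    Cardinal.mk_le_of_injective (f := fun o => ⟨f (t, o), h2 o⟩) (by
      intro o o' e
      have := f.injective (congrArg Subtype.val e)
      exact (Prod.mk.inj this).2)
  rw [mk_O] at h3
  have h4 : #(insert ζ (Set.Iio ζ) : Set O) < 𝔠 :=
    Cardinal.mk_insert_le.trans_lt (Cardinal.add_lt_of_lt Cardinal.aleph0_le_continuum (mk_Iio_O ζ)
      (Cardinal.one_lt_aleph0.trans Cardinal.aleph0_lt_continuum))
  exact absurd h3 (not_le.2 h4)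

abbrev Task : Type := (C × C) ⊕ ((L → C) × (L → C) × (L → C))

theorem mk_Task : #Task ≤ 𝔠 := by
  have h2 : #L = ℵ₀ := by simp [L]
  simp [Task, mk_K, h2]

def App : Task → St → Prop
  | Sum.inl p, σ => dec p.1 ∈ σ.V ∧ dec p.1 ∈ Lam 0 ∧ dec p.2 ∈ σ.V ∧ dec p.2 ∈ Lam 0 ∧
      ∃ x0, ‖dec p.1 x0‖ = 1
  | Sum.inr p, σ => (∀ l, dec (p.1 l) ∈ σ.V ∧ dec (p.1 l) ∈ Lam 0) ∧ (∀ l, dec (p.2.1 l) ∈ σ.V) ∧
      ∀ l, dec (p.2.2 l) ∈ σ.V

def Han : Task → St → Prop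
  | Sum.inl p, σ => ∃ i ∈ σ.A, σ.φ i (dec p.1) = dec p.2
  | Sum.inr p, σ => H1 σ (fun l => dec (p.2.1 l)) (fun l => dec (p.2.2 l)) ∨
      H2 σ (fun l => dec (p.1 l)) (fun l => dec (p.2.1 l)) (fun l => dec (p.2.2 l))

theorem App.mono {t : Task} {σ τ : St} (h : σ ≤ τ) (ha : App t σ) : App t τ := by
  rcases t with p | p
  · exact ⟨h.2.2.1 ha.1, ha.2.1, h.2.2.1 ha.2.2.1, ha.2.2.2⟩
  · exact ⟨fun l => ⟨h.2.2.1 (ha.1 l).1, (ha.1 l).2⟩, fun l => h.2.2.1 (ha.2.1 l),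
      fun l => h.2.2.1 (ha.2.2 l)⟩

theorem Han.mono {t : Task} {σ τ : St} (h : σ ≤ τ) (ha : Han t σ) : Han t τ := by
  rcases t with p | p
  · obtain ⟨i, hi, e⟩ := ha
    exact ⟨i, h.1 hi, by rw [h.2.1 i hi, e]⟩
  · rcases ha with ⟨ε, h1, h2⟩ | ⟨t, π, k, h1, h2, y, hy, h3⟩
    · refine Or.inl ⟨ε, fun m hm j hj => h.1 (h1 m hm j hj), fun k => ?_⟩
      rw [h2 k]
      simp only [Finsupp.linearCombination_apply, Finsupp.sum]
      refine Finset.sum_congr rfl (fun m hm => ?_)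
      rw [wd_congr (fun j hj => h.2.1 j (h1 m hm j hj))]
    · exact Or.inr ⟨t, π, k, h1, h.2.2.1 h2, y, h.2.2.2 hy, h3⟩

theorem step_task {κ : Cardinal} (hκ : ℵ₀ ≤ κ) (hκc : κ < 𝔠) {σ : St} (hσ : Good κ σ)
    (t : Task) : ∃ τ, σ ≤ τ ∧ Good κ τ ∧ (App t σ → Han t τ) := by
  by_cases ha : App t σ
  · rcases t with p | p
    · obtain ⟨h1, h2, h3, h4, x0, h5⟩ := ha
      obtain ⟨τ, a1, a2, a3⟩ := step_op hκ hκc hσ _ _ h1 h2 h3 h4 x0 h5
      exact ⟨τ, a1, a2, fun _ => a3⟩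
    · obtain ⟨h1, h2, h3⟩ := ha
      obtain ⟨τ, a1, a2, a3⟩ := step_kill hκ hκc hσ _ _ _ h1 h2 h3
      exact ⟨τ, a1, a2, fun _ => a3⟩
  · exact ⟨σ, le_rfl, hσ, fun h => absurd h ha⟩

theorem exists_final : ∃ τ, Inv τ ∧ ∀ t, App t τ → Han t τ := by
  haveI : Nonempty O := Cardinal.mk_ne_zero_iff.1 (by rw [mk_O]; exact Cardinal.continuum_ne_zero)
  haveI : Nonempty St := ⟨exists_base.choose⟩
  obtain ⟨e, he⟩ := exists_enum Task mk_Task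
  obtain ⟨σ, hm, hQ, hR⟩ := recur (P := St) (O := O)
    (fun ξ σ => Good (max ℵ₀ #(Set.Iio ξ)) σ) (fun ξ σ τ => App (e ξ) σ → Han (e ξ) τ) (by
      intro ξ σ hm hQ
      have hκ : ℵ₀ ≤ max ℵ₀ #(Set.Iio ξ) := le_max_left _ _
      obtain ⟨τ, h1, h2⟩ := exists_good_ub hκ (le_max_right _ _) σ hm (fun z => (hQ z).mono
        (max_le_max le_rfl (Cardinal.mk_le_mk_of_subset (Set.Iio_subset_Iio (le_of_lt z.2)))))
      obtain ⟨ρ, h3, h4, h5⟩ := step_task hκ (max_lt Cardinal.aleph0_lt_continuum (mk_Iio_O ξ))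
        h1 (e ξ)
      exact ⟨ρ, h4, fun z => ⟨(h2 z).trans h3, fun ha => h5 (ha.mono (h2 z))⟩⟩)
  obtain ⟨τ, h1, h2, -, h4, -⟩ := exists_ub σ hm (fun z => (hQ z).1)
  have hV : ∀ v ∈ τ.V, ∃ z, v ∈ (σ z).V := by
    intro v hv
    have : v ∈ (τ.V : Set W) := hv
    rw [h4] at this
    exact Set.mem_iUnion.1 this
  refine ⟨τ, h1, fun t ha => ?_⟩
  have : ∃ ζ, App t (σ ζ) := by
    rcases t with p | p
    · obtain ⟨a1, a2, a3, a4⟩ := ha
      obtain ⟨z, hz⟩ := hV _ a1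
      obtain ⟨z', hz'⟩ := hV _ a3
      exact ⟨max z z', (hm (le_max_left z z')).2.2.1 hz, a2, (hm (le_max_right z z')).2.2.1 hz', a4⟩
    · obtain ⟨a1, a2, a3⟩ := ha
      choose z1 h1 using fun l => hV _ (a1 l).1
      choose z2 h2 using fun l => hV _ (a2 l)
      choose z3 h3 using fun l => hV _ (a3 l)
      obtain ⟨ξ, hξ⟩ := O_bound (fun l => max (z1 l) (max (z2 l) (z3 l)))
      simp only [max_le_iff] at hξ
      exact ⟨ξ, fun l => ⟨(hm (hξ l).1).2.2.1 (h1 l), (a1 l).2⟩,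
        fun l => (hm (hξ l).2.1).2.2.1 (h2 l), fun l => (hm (hξ l).2.2).2.2.1 (h3 l)⟩
  obtain ⟨ζ, hζ⟩ := this
  obtain ⟨ξ, hξ, rfl⟩ := he t ζ
  exact (hR ζ ξ hξ hζ).mono (h2 ξ)

end Pool.Agent.H.MP_e12dda_al
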