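import Pool.Agent.H.MP_e12dda_al.D

set_option autoImplicit false

namespace Pool.Agent.H.MP_e12dda_al

open Cardinal

noncomputable def Gp (σ : St) : AddSubgroup W := σ.V.toAddSubgroup ⊓ Lam 0

theorem mem_Gp {σ : St} {f : W} : f ∈ Gp σ ↔ f ∈ σ.V ∧ f ∈ Lam 0 := Iff.rfl

theorem nsmul_eq (n : ℕ) (f : W) : n • f = (n : K) • f := (Nat.cast_smul_eq_nsmul K n f).symm

theorem two_pow_smul (n : ℕ) (f : W) : 2 ^ n • f = (2 : K) ^ n • f := by
  rw [nsmul_eq]; simp

theorem two_pow_Lam {σ : St} (N : ℕ) (y : Gp σ) : ((2 ^ N • y : Gp σ) : W) ∈ Lam N := by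
  rw [AddSubgroupClass.coe_nsmul, two_pow_smul]
  exact smul_Lam0 (norm_two_pow N).le y.2.2

theorem div_pow {σ : St} (N : ℕ) (a : Gp σ) (h : (a : W) ∈ Lam N) : ∃ y : Gp σ, 2 ^ N • y = a := by
  have e : ((2 : ℚ) ^ N)⁻¹ • (a : W) = ((2 : K) ^ N)⁻¹ • (a : W) := by
    rw [← Rat.cast_smul_eq_qsmul K]; simp
  refine ⟨⟨((2 : ℚ) ^ N)⁻¹ • (a : W), σ.V.smul_mem _ a.2.1, ?_⟩, ?_⟩
  · intro x
    rw [e]
    simp only [Pi.smul_apply, smul_eq_mul, norm_mul, norm_inv, norm_two_pow, pow_zero]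
    rw [inv_mul_le_iff₀ (by positivity), mul_one]
    exact h x
  · apply Subtype.ext
    rw [AddSubgroupClass.coe_nsmul, two_pow_smul]
    show (2 : K) ^ N • (((2 : ℚ) ^ N)⁻¹ • (a : W)) = a
    rw [e, smul_smul, mul_inv_cancel₀ (pow_ne_zero _ two_ne_zero), one_smul]

theorem div_odd {σ : St} (n : ℕ) (hn : ¬ 2 ∣ n) (a : Gp σ) : ∃ y : Gp σ, n • y = a := by
  have hn0 : n ≠ 0 := by rintro rfl; simp at hn
  have e : ((n : ℚ))⁻¹ • (a : W) = ((n : K))⁻¹ • (a : W) := by
    rw [← Rat.cast_smul_eq_qsmul K]; simp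
  have hnorm : ‖(n : K)‖ = 1 := by
    rw [Padic.norm_natCast_eq_one_iff]
    exact (Nat.Prime.coprime_iff_not_dvd Nat.prime_two).2 hn
  refine ⟨⟨((n : ℚ))⁻¹ • (a : W), σ.V.smul_mem _ a.2.1, ?_⟩, ?_⟩
  · rw [e]
    exact smul_Lam0 (by simp [hnorm]) a.2.2
  · apply Subtype.ext
    rw [AddSubgroupClass.coe_nsmul, nsmul_eq]
    show (n : K) • (((n : ℚ))⁻¹ • (a : W)) = a
    rw [e, smul_smul, mul_inv_cancel₀ (by exact_mod_cast hn0), one_smul]

theorem unit_coord {σ : St} (a : Gp σ) (h : ¬ ∃ y : Gp σ, 2 • y = a) : ∃ x0, ‖(a : W) x0‖ = 1 := by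
  by_contra hcon
  push Not at hcon
  apply h
  have : (a : W) ∈ Lam 1 := by
    intro x
    have h1 : ‖(a : W) x‖ < 1 := lt_of_le_of_ne (by simpa using a.2.2 x) (hcon x)
    have h2 := (Padic.norm_le_pow_iff_norm_lt_pow_add_one (p := 2) ((a : W) x) (-1)).2
      (by simpa using h1)
    simpa using h2
  simpa using div_pow 1 a this

theorem exists_height {σ : St} (a : Gp σ) (ha : a ≠ 0) :
    ∃ (k : ℕ) (a' : Gp σ), a = 2 ^ k • a' ∧ ¬ ∃ y : Gp σ, 2 • y = a' := by
  classical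
  have h : ∃ k, (a : W) ∉ Lam (k + 1) := by
    by_contra hcon
    push Not at hcon
    exact ha (Subtype.ext (eq_zero_of_Lam (fun N => Lam_anti (Nat.le_succ N) (hcon N))))
  have h1 : (a : W) ∈ Lam (Nat.find h) := by
    rcases hk : Nat.find h with _ | k
    · exact a.2.2
    · have := Nat.find_min h (m := k) (by omega)
      simpa using this
  obtain ⟨a', ha'⟩ := div_pow _ a h1
  refine ⟨Nat.find h, a', ha'.symm, ?_⟩
  rintro ⟨y, rfl⟩
  apply Nat.find_spec h
  have := two_pow_Lam (Nat.find h + 1) y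
  rwa [pow_succ, ← smul_smul, ha'] at this

theorem approx (π : K) (hπ : ‖π‖ ≤ 1) (N : ℕ) : ∃ z : ℕ, ‖π - z‖ ≤ (1 / 2 : ℝ) ^ N := by
  obtain ⟨z, hz⟩ := Metric.denseRange_iff.1 (PadicInt.denseRange_natCast (p := 2))
    ⟨π, hπ⟩ ((1 / 2 : ℝ) ^ N) (by positivity)
  refine ⟨z, le_of_lt ?_⟩
  rw [dist_eq_norm, PadicInt.norm_def] at hz
  simpa using hz

theorem poly_on {σ : St} (hI : Inv σ) (hT : ∀ t, App t σ → Han t σ) (θ : Gp σ →+ Gp σ)
    (g : L → Gp σ) : H1 σ (fun l => g l) (fun l => θ (g l)) := by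
  let B : L → Gp σ := fun l => ⟨b l, hI.bV l, b_Lam l⟩
  choose cs hs using fun l => exists_dec (hI.Vc _ (θ (B l)).2.1)
  choose cg hg using fun l => exists_dec (hI.Vc _ (g l).2.1)
  choose ch hh using fun l => exists_dec (hI.Vc _ (θ (g l)).2.1)
  have := hT (Sum.inr (cs, cg, ch)) ⟨fun l => by rw [hs]; exact (θ (B l)).2,
    fun l => by rw [hg]; exact (g l).2.1, fun l => by rw [hh]; exact (θ (g l)).2.1⟩
  simp only [Han, hs, hg, hh] at this
  refine this.resolve_right ?_
  rintro ⟨t, π, k, hπ, hx, y, hy, hN⟩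
  apply hI.YV y hy
  let x : Gp σ := ⟨xt t + π • (g k : W), hx,
    AddSubgroup.add_mem _ (xt_Lam t) (smul_Lam0 (by simpa using hπ) (g k).2.2)⟩
  have : y - (θ x : W) = 0 := by
    apply eq_zero_of_Lam
    intro N
    obtain ⟨z, hz⟩ := approx π hπ N
    let r : Gp σ := x - (∑ n ∈ Finset.range N, 2 ^ n • B (pre t n) + z • g k)
    have hr : (r : W) ∈ Lam N := by
      have e : (r : W) = (xt t - ∑ n ∈ Finset.range N, (2 : K) ^ n • b (pre t n)) +
          (π - z) • (g k : W) := by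
        simp only [r, x, B, AddSubgroupClass.coe_sub, AddSubgroup.coe_add,
          AddSubmonoidClass.coe_finset_sum, AddSubgroupClass.coe_nsmul, two_pow_smul]
        rw [nsmul_eq, sub_smul]
        abel
      rw [e]
      exact AddSubgroup.add_mem _ (xt_sub t N) (smul_Lam0 hz (g k).2.2)
    obtain ⟨r', hr'⟩ := div_pow N r hr
    have h1 : (θ r : W) ∈ Lam N := by
      rw [← hr', map_nsmul]
      exact two_pow_Lam _ _
    have e : y - (θ x : W) = (y - (∑ n ∈ Finset.range N, (2 : K) ^ n • (θ (B (pre t n)) : W) +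
        π • (θ (g k) : W))) + (π - z) • (θ (g k) : W) - (θ r : W) := by
      simp only [r, map_sub, map_add, map_sum, map_nsmul, AddSubgroupClass.coe_sub,
        AddSubgroup.coe_add, AddSubmonoidClass.coe_finset_sum, AddSubgroupClass.coe_nsmul,
        two_pow_smul]
      rw [nsmul_eq, sub_smul]
      abel
    rw [e]
    exact AddSubgroup.sub_mem _ (AddSubgroup.add_mem _ (hN N) (smul_Lam0 hz (θ (g k)).2.2)) h1
  rw [sub_eq_zero.1 this]
  exact (θ x).2.1

theorem no_aut {σ : St} (hI : Inv σ) (hT : ∀ t, App t σ → Han t σ) (θ : Gp σ ≃+ Gp σ) :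
    θ ⟨b [], hI.bV _, b_Lam _⟩ ≠ ⟨b [true], hI.bV _, b_Lam _⟩ := by
  classical
  intro hθ
  let B : L → Gp σ := fun l => ⟨b l, hI.bV l, b_Lam l⟩
  obtain ⟨ε, h1, h2⟩ := poly_on hI hT θ.toAddMonoidHom B
  obtain ⟨ε', h3, h4⟩ := poly_on hI hT θ.symm.toAddMonoidHom (fun l => θ (B l))
  simp only [AddEquiv.toAddMonoidHom_eq_coe, AddMonoidHom.coe_coe, AddEquiv.symm_apply_apply,
    B] at h2 h4
  have hop := hI.op
  choose! x0 d hd using hop
  obtain ⟨l, hl⟩ := Infinite.exists_notMem_finset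
    (((ε.support ∪ ε'.support).biUnion List.toFinset).image (fun j => (x0 j).2))
  have hw : ∀ n : List I, (∀ j ∈ n, j ∈ σ.A ∧ (x0 j).2 ≠ l) →
      wd σ.φ n (b l) = wd sh n (b l) := by
    intro n hn
    induction n with
    | nil => rfl
    | cons j n ih =>
      have hj := hn j (by simp)
      rw [wd_cons, wd_cons, ih (fun k hk => hn k (by simp [hk])), (hd j hj.1).2.2.2]
      have : wd sh n (b l) (x0 j) = 0 := by
        show wd sh n (b l) ((x0 j).1, (x0 j).2) = 0
        rw [wd_sh_apply (b_cons l), b_ne hj.2, ite_self]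
      rw [this, zero_smul, add_zero]
  have hl' : ∀ m ∈ ε.support ∪ ε'.support, ∀ j ∈ m, (x0 j).2 ≠ l := by
    intro m hm j hj e
    exact hl (Finset.mem_image.2 ⟨j, Finset.mem_biUnion.2 ⟨m, hm, List.mem_toFinset.2 hj⟩, e⟩)
  have key : ∀ n : List I, b l (n, l) = ∑ m' ∈ ε'.support, ∑ m ∈ ε.support,
      if n = m' ++ m then ((ε' m' * ε m : ℚ) : K) else 0 := by
    intro n
    have e := congrFun (h4 l) (n, l)
    rw [e, h2 l]
    simp only [Finsupp.linearCombination_apply, Finsupp.sum, Finset.sum_apply, map_sum,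
      LinearMap.map_smul_of_tower, Finset.smul_sum]
    refine Finset.sum_congr rfl (fun m' hm' => Finset.sum_congr rfl (fun m hm => ?_))
    rw [← wd_append, hw, smul_smul, ← Rat.cast_smul_eq_qsmul K, Pi.smul_apply,
      wd_sh_apply (b_cons l), b_self]
    · simp
    · intro j hj
      rcases List.mem_append.1 hj with hj | hj
      · exact ⟨h3 m' hm' j hj, hl' m' (Finset.mem_union_right _ hm') j hj⟩
      · exact ⟨h1 m hm j hj, hl' m (Finset.mem_union_left _ hm) j hj⟩
  have hne : ε.support.Nonempty ∧ ε'.support.Nonempty := by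
    have := key []
    rw [b_self] at this
    obtain ⟨m', hm', h⟩ := Finset.exists_ne_zero_of_sum_ne_zero (this ▸ one_ne_zero)
    obtain ⟨m, hm, -⟩ := Finset.exists_ne_zero_of_sum_ne_zero h
    exact ⟨⟨m, hm⟩, ⟨m', hm'⟩⟩
  obtain ⟨m0, hm0, hmax⟩ := Finset.exists_max_image ε.support List.length hne.1
  obtain ⟨m0', hm0', hmax'⟩ := Finset.exists_max_image ε'.support List.length hne.2
  have k1 := key (m0' ++ m0)
  rw [Finset.sum_eq_single m0', Finset.sum_eq_single m0, if_pos rfl] at k1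
  · have hm0nil : m0 = [] := by
      by_contra hc
      have : b l (m0' ++ m0, l) = 0 := by simp [b, hc]
      rw [this] at k1
      have k2 : ε' m0' * ε m0 = 0 := by exact_mod_cast k1.symm
      rcases mul_eq_zero.1 k2 with h | h
      · exact Finsupp.mem_support_iff.1 hm0' h
      · exact Finsupp.mem_support_iff.1 hm0 h
    have e := congrFun (h2 []) ([], [true])
    rw [hθ] at e
    simp only [b_self, Finsupp.linearCombination_apply, Finsupp.sum, Finset.sum_apply] at e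
    rw [Finset.sum_eq_zero] at e
    · exact one_ne_zero e
    · intro m hm
      have : m = [] := by
        have := hmax m hm
        rw [hm0nil] at this
        simpa using this
      subst this
      have : b [] ([], [true]) = 0 := b_ne (by simp) _
      simp [this]
  · intro m _ hne
    rw [if_neg]
    intro e
    exact hne (List.append_cancel_left e).symm
  · intro h; exact absurd hm0 h
  · intro m' hm' hne
    refine Finset.sum_eq_zero (fun m hm => ?_)
    rw [if_neg]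
    intro e
    have e1 := congrArg List.length e
    simp only [List.length_append] at e1
    have := hmax m hm
    have := hmax' m' hm'
    exact hne (List.append_inj_left e (by omega)).symm
  · intro h; exact absurd hm0' h

/-- A reduced torsion-free 2-local group whose endomorphisms move every element of height zero to
every element, while no automorphism moves one such element to another. -/
theorem exists_G : ∃ (G : Type) (_ : AddCommGroup G),
    (∀ (n : ℕ) (x : G), n ≠ 0 → n • x = 0 → x = 0) ∧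
    (∀ n : ℕ, ¬ 2 ∣ n → ∀ x : G, ∃ y, n • y = x) ∧
    (∀ a : G, a ≠ 0 → ∃ (k : ℕ) (a' : G), a = 2 ^ k • a' ∧ ¬ ∃ y : G, 2 • y = a') ∧
    (∀ a : G, (¬ ∃ y : G, 2 • y = a) → ∀ c : G, ∃ f : G →+ G, f a = c) ∧
    ∃ a c : G, (¬ ∃ y : G, 2 • y = a) ∧ (¬ ∃ y : G, 2 • y = c) ∧ ∀ f : G ≃+ G, f a ≠ c := by
  obtain ⟨σ, hI, hT⟩ := exists_final
  have hb : ∀ l, ¬ ∃ y : Gp σ, 2 • y = ⟨b l, hI.bV _, b_Lam _⟩ := by
    rintro l ⟨y, hy⟩
    have := two_pow_Lam 1 y ([], l)
    rw [pow_one, hy] at this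
    simp only [b_self] at this
    norm_num at this
  refine ⟨Gp σ, inferInstance, ?_, div_odd, exists_height, ?_, _, _, hb _, hb _, no_aut hI hT⟩
  · intro n x hn h
    have := congrArg Subtype.val h
    rw [AddSubgroupClass.coe_nsmul, nsmul_eq] at this
    rcases smul_eq_zero.1 this with h | h
    · exact absurd (by exact_mod_cast h) hn
    · exact Subtype.ext h
  · intro a ha c
    obtain ⟨ca, e1⟩ := exists_dec (hI.Vc _ a.2.1)
    obtain ⟨cc, e2⟩ := exists_dec (hI.Vc _ c.2.1)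
    obtain ⟨i, hi, e⟩ := hT (Sum.inl (ca, cc)) (by
      simp only [App, e1, e2]
      exact ⟨a.2.1, a.2.2, c.2.1, c.2.2, unit_coord a ha⟩)
    simp only [e1, e2] at e
    refine ⟨AddMonoidHom.codRestrict ((σ.φ i).toAddMonoidHom.comp (Gp σ).subtype) (Gp σ)
      (fun v => ⟨hI.cl i hi _ v.2.1, hI.Lam_cl i hi _ v.2.2⟩), Subtype.ext e⟩

end Pool.Agent.H.MP_e12dda_al
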